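import Pool.Agent.W534.PoleD

/-!
# Poles of the zeta function of the product of a variety and a hyperplane section

Let `X` be a variety of dimension `n` over an algebraic closure of a finite field and `i : Y → X` a
smooth hyperplane section, with hard and weak Lefschetz and the Riemann hypothesis (theorems of
Deligne). If the zeta function of `X × Y` (over all sufficiently large finite fields) has a pole at
`n - 1`, or at `n`, of order the rank of the group of cycles of this codimension modulo numerical
equivalence, then the same holds at all integers for `X × Y`, for `X` and for `Y`, and the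
Lefschetz standard conjecture holds for `X`. It is enough that the generalised eigenspaces of the
Frobenius endomorphisms in `H^(2 n - 2)(X × Y)` for the eigenvalue `q ^ (n - 1)` are spanned by
classes of cycles.
-/

set_option autoImplicit false

open Pool.Agent.H914 Pool.Agent.H914.VarClass Pool.Agent.H914.VarClass.Obj
  Pool.Agent.H914.WeilCohomology Pool.Agent.H447 Pool.Agent.W534

universe u v

namespace Pool.Agent.Results.MP_557161_ag.HyperplaneProduct

/-- **Poles of the zeta function of the product of a variety and a hyperplane section.** -/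
theorem result {k : Type u} [Field k] {𝒱 : VarClass k} {ops : CycleOps 𝒱}
    {W : WeilCohomology.{u, v} ops} {p : ℕ} (Φ : FrobSystem W p) (σ : W.K →+* ℂ) (hp : 1 < p)
    (hRH : ∀ Z, RiemannHyp Φ σ Z) (X Y : 𝒱.Obj) (i : Y ⟶ X)
    (D : X.Cycles) (hdim : X.dim = Y.dim + 1) (hD : X.IsCyc 1 D)
    (hY : W.cl X (ops.push i Y.V.fundCycle) = W.cl X D) (hHL : HardLefschetz W X D)
    (hWL : WeakLefschetz W i) :
    List.TFAE [
      PoleFormula Φ σ (X.prod Y) Y.dim,
      PoleFormula Φ σ (X.prod Y) X.dim,
      ∀ j ≤ (X.prod Y).dim, PoleFormula Φ σ (X.prod Y) j,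
      SemisimpleTateIn Φ (X.prod Y) Y.dim] ∧
    (PoleFormula Φ σ (X.prod Y) Y.dim →
      LefschetzB W X D ∧ (∀ j ≤ X.dim, PoleFormula Φ σ X j) ∧ ∀ j ≤ Y.dim, PoleFormula Φ σ Y j) :=
  ⟨pole_hyperplane hp hRH hdim hD hY hHL hWL, pole_factors hp hRH hdim hD hY hHL hWL⟩

end Pool.Agent.Results.MP_557161_ag.HyperplaneProduct
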