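import Pool.Agent.H44T.PT.Pole

/-!
# The orders of the poles of the zeta functions of the products `Z × X^n`

In the intended use the varieties are the smooth projective ones over an algebraic closure of a
finite field (or those of any class of them which is closed under products), `W` is an `l`-adic
cohomology and `Φ` are the Frobenius endomorphisms of models of the varieties. For a variety `Y` let
`z(Y)` be the sum of the orders of the poles of the zeta function of `Y` at the integers
`0, …, dim Y`, over all sufficiently large finite fields, and let `r(Y)` be the rank of the group of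
algebraic cycles (of all codimensions) on `Y` modulo numerical equivalence. By the Riemann hypothesis
`r(Y) ≤ z(Y)`, and the conjecture of Tate on the poles of the zeta function for `Y` and all integers
is the equality `r(Y) = z(Y)`.

For every variety `X` there is `N` in `{1, 2, …, ∞}` such that `z(X^n) / r(X^n)` tends to `N`, with
`N = 1` if and only if the formula of Tate holds for all powers of `X` and all integers. For every
variety `Z` there are integers `1 ≤ q ≤ p ≤ b(Z)`, where `b(Z)` is the total Betti number, such that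

* `z(Z × X^n) / z(X^n)` tends to `p`, and if `N` is finite `r(Z × X^n) / r(X^n)` tends to `q`;
* `z(Z × X^n) / r(Z × X^n)` tends to `N p / q`;
* the formula of Tate holds for all products `Z × X^n` and all integers iff `N = 1` and `p = q`;
* if the formula of Tate fails for some power of `X` (at some integer), then for every `Z`
  asymptotically at least one half of the sum of the orders of the poles of the zeta function of
  `Z × X^n` does not come from algebraic cycles;
* if `p ≠ q` then this is true for a share of at least `1 / (2 p) ≥ 1 / (2 b(Z))`.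

Nothing is assumed on the semisimplicity of the Frobenius endomorphisms or on homological and
numerical equivalence.
-/

set_option autoImplicit false

open CategoryTheory AlgebraicGeometry Filter Topology

open scoped ENNReal

universe u v

namespace Pool.Agent.Results.MP_557161_ag.PoleOrdersTimesPowers

open Module
open Pool.Agent.H914 Pool.Agent.H914.VarClass Pool.Agent.H914.VarClass.Obj
  Pool.Agent.H914.WeilCohomology Pool.Agent.W534 Pool.Agent.H281R3.HT Pool.Agent.H44T.PT
open Pool.Agent.Y133.Half (cycRank algSys tateSys pw)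
open Pool.Agent.Y163 (Big)

variable {k : Type u} [Field k] {𝒱 : VarClass k} {ops : CycleOps 𝒱}

/-- For every `ε > 0` we have `a n ≤ (c + ε) t n` for all sufficiently large `n`. -/
def AtMost (c : ℝ) (a t : ℕ → ℕ) : Prop :=
  ∀ ε : ℝ, 0 < ε → ∃ n₀ : ℕ, ∀ n ≥ n₀, (a n : ℝ) ≤ (c + ε) * t n

/-- The formula of Tate for the orders of the poles of the zeta function of `Y` at all integers. -/
def PoleFormulas {W : WeilCohomology.{u, v} ops} {p : ℕ} (Φ : FrobSystem W p) (σ : W.K →+* ℂ)
    (Y : 𝒱.Obj) : Prop :=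
  ∀ j ≤ Y.dim, PoleFormula Φ σ Y j

/-- **The index law for the orders of the poles of the zeta functions of `Z × X^n`.** -/
theorem result (W : WeilCohomology.{u, v} ops) (ch : ℕ) (hch : ch.Prime) (Φ : FrobSystem W ch)
    (σ : W.K →+* ℂ) (hRH : ∀ Y : 𝒱.Obj, RiemannHyp Φ σ Y)
    (hbig : ∀ Y : 𝒱.Obj, Nontrivial (W.H Y) → ∃ D, Y.IsCyc 1 D ∧ Big ops Y D) :
    ∃ z : 𝒱.Obj → ℕ, (∀ Y, IsPoleTotal Φ σ Y (z Y)) ∧
      ∀ X : 𝒱.Obj, Nontrivial (W.H X) → ∃ N : ℕ∞, 1 ≤ N ∧
        Tendsto (fun n => (z (pw X n) : ℝ≥0∞) / cycRank ops (pw X n)) atTop (𝓝 (N : ℝ≥0∞)) ∧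
        (N = 1 ↔ ∀ n, PoleFormulas Φ σ (pw X n)) ∧
        ∀ Z : 𝒱.Obj, Nontrivial (W.H Z) → ∃ p q : ℕ, 1 ≤ q ∧ q ≤ p ∧
          p ≤ finrank W.K (W.H Z) ∧
          Tendsto (fun n => (z (Z.prod (pw X n)) : ℝ≥0∞) / z (pw X n)) atTop
            (𝓝 (p : ℝ≥0∞)) ∧
          (N ≠ ⊤ → Tendsto (fun n => (cycRank ops (Z.prod (pw X n)) : ℝ≥0∞) /
            cycRank ops (pw X n)) atTop (𝓝 (q : ℝ≥0∞))) ∧
          Tendsto (fun n => (z (Z.prod (pw X n)) : ℝ≥0∞) / cycRank ops (Z.prod (pw X n))) atTop
            (𝓝 ((N : ℝ≥0∞) * ((p : ℝ≥0∞) / q))) ∧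
          ((N = 1 ∧ p = q) ↔ ∀ n, PoleFormulas Φ σ (Z.prod (pw X n))) ∧
          (N ≠ 1 → AtMost (1 / 2) (fun n => cycRank ops (Z.prod (pw X n)))
            (fun n => z (Z.prod (pw X n)))) ∧
          (p ≠ q → AtMost (1 - 1 / (2 * p)) (fun n => cycRank ops (Z.prod (pw X n)))
            (fun n => z (Z.prod (pw X n)))) := by
  have hpair := tate_pair Φ hbig
  refine ⟨fun Y => finrank W.K ((tateSys Φ).C Y), fun Y => poleTotal Φ σ hch.one_lt (hRH Y),
    fun X hX => ?_⟩
  obtain ⟨N, h1, h2, h3, h4⟩ := Pool.Agent.V1142.XZ.base_law hpair.le X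
  have hle : ∀ Y : 𝒱.Obj, (cycRank ops Y : ℝ) ≤ finrank W.K ((algSys W).C Y) := by
    intro Y
    rw [← cyc_eq (W := W) Y]
    have h5 := (algSys W).a_add_num Y
    exact_mod_cast (by omega : (algSys W).a Y ≤ finrank W.K ((algSys W).C Y))
  refine ⟨N, h1, ?_, ?_, fun Z hZ => ?_⟩
  · refine h2.congr fun n => ?_
    rw [cyc_eq]
  · rw [h4]
    exact forall_congr' fun n => (pole_iff Φ hch.one_lt (hRH _)).symm
  obtain ⟨p, q, k1, k2, k3, k4, k5, k6, k7, k8, k9⟩ :=
    hpair.law X Z h1 h2 h3 fun hN n => ((h4.1 hN) n).1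
  refine ⟨p, q, k1, k2, k3, k4, fun hN => ?_, ?_, ?_, fun hN ε hε => ?_, fun hpq ε hε => ?_⟩
  · refine (k5 hN).congr fun n => ?_
    rw [cyc_eq, cyc_eq]
  · refine k6.congr fun n => ?_
    rw [cyc_eq]
  · rw [k7]
    refine forall_congr' fun n => ?_
    unfold PoleFormulas
    rw [pole_iff Φ hch.one_lt (hRH _)]
    refine ⟨fun h => ⟨h, ?_⟩, fun h => h.1⟩
    rw [eq_bot_iff]
    intro c hc
    have h5 : c ∈ (tateSys Φ).C (Z.prod (pw X n)) := hpair.le _ hc.1
    refine (Submodule.mem_bot _).2 (hpair.nondeg _ c h5 fun y hy => ?_)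
    rw [← h] at hy
    exact hc.2 y hy
  · obtain ⟨n₀, hn₀⟩ := k8 hN ε hε
    exact ⟨n₀, fun n hn => (hle _).trans (hn₀ n hn)⟩
  · obtain ⟨n₀, hn₀⟩ := k9 hpq ε hε
    exact ⟨n₀, fun n hn => (hle _).trans (hn₀ n hn)⟩

end Pool.Agent.Results.MP_557161_ag.PoleOrdersTimesPowers
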