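import Pool.Agent.V1141.SL.Final2

/-!
# Poles of the zeta functions of all products of varieties with a Frobenius number of degree
`2 d`, `d` prime, and any slopes

Let `X 1, …, X r` be smooth projective varieties over a finite field such that the cohomology of
`X i` is spanned by classes of algebraic cycles and by eigenvectors of the Frobenius endomorphism in
the middle degree (of any weight), with eigenvalues which are, up to powers, `q ^ (dim / 2)` times
the conjugates of a number `α i` in a CM field `E i` (`IsSpannedByNumber`), all of whose complex
absolute values are one, such that `q α i` is an algebraic integer and all powers of `α i` generate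
`E i` (`IsWeilUnit`). We assume that the eigenvalues have multiplicity one (then nothing is assumed
about products of the `X i`), or the Tate conjecture for `X i × X i` in the middle codimension.

We assume that the degree of `E i` is `2 d` with a **prime number** `d`. There is no condition on the
Galois group, and **no condition on the slopes** (the Newton polygon). If `E i` contains an imaginary
quadratic field `F`, we assume that the norm of `α i` to `F` is not a root of unity
(`NoNormRelation`; otherwise there are exotic Tate classes of Weil type on the powers of `X i`).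

For `i < j` the Galois closure of `E j` has totally real intersection with all images of `E i`
(`IsAllowed`), or it is one exceptional field `L₀ i`, with `L₀ i ∩ E i` totally real or
`[E i : E i ∩ L₀ i]` greater than the number of the factors `X i` (`SmallIntersection`).

**Theorem.** Let `Z` be any product of copies of the varieties `X i` and of varieties all of whose
cohomology is algebraic (any number of factors). Then

* the formula of Tate holds for `Z`: for all `j` the order of the zeta function at `j` (over all
  sufficiently large finite fields) is the negative of the rank of the group of the cycles of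
  codimension `j` modulo numerical equivalence (the Riemann hypothesis for `Z` is not assumed, but
  proved);
* for **every** smooth projective variety `U` which satisfies the Riemann hypothesis (the theorem of
  Deligne) and whose Frobenius slopes are products of slopes in Galois fields `L ∈ 𝓛` such that each
  `L ∈ 𝓛` has totally real intersections with the `E i`, or is equal to `L₀ i`: the ranks of the
  cycles on `Z × U` modulo numerical equivalence are `ρ_c(Z × U) = ∑ ρ_i(Z) ρ_{c-i}(U)`, the defects
  in the formula of Tate are `δ_c(Z × U) = ∑ ρ_i(Z) δ_{c-i}(U)`, and so the formula of Tate holds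
  for `Z × U` in codimension `c` if and only if it holds for `U` in all codimensions `j = c - i`
  with `ρ_i(Z) ≠ 0`. Nothing else is assumed on `U`.

The proof that there are no relations: the Galois group contains an element `g` of prime order `d`
(or `d = 2`) which permutes the `d` pairs of conjugate embeddings cyclically. The cyclotomic
polynomial is irreducible over the rational numbers, so if an odd integral function `n` is orthogonal
to all translates of the slope function `v`, then `n` is constant on the orbits of `g`, or all the
translates of `v` are. From this, for all conjugates of `g`, one gets an odd function with values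
`± 1` which is multiplied by `± 1` by the Galois group; so there is an imaginary quadratic subfield
of `E`, and the norm of `α` to this field, or to `E`, is a root of unity.
-/

set_option autoImplicit false

open CategoryTheory AlgebraicGeometry NumberField

universe u v

namespace Pool.Agent.Results.MP_557161_ag.PrimeDegree

open Pool.Agent.H914 Pool.Agent.W534 Pool.Agent.W552 Pool.Agent.H281R3.HT Pool.Agent.TH121.KT
  Pool.Agent.Y103.Hk Pool.Agent.Y103.Sh Pool.Agent.Y103.Sq Pool.Agent.V1141.SL
  Pool.Agent.TH132.P VarClass Obj WeilCohomology

/-- **The formula of Tate for the orders of the poles, for all products of varieties with a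
Frobenius number of degree `2 d`, `d` prime, and for their products with other varieties.** -/
theorem result {k : Type u} [Field k] {𝒱 : VarClass k} {ops : CycleOps 𝒱}
    (W : WeilCohomology.{u, v} ops) [IsAlgClosed W.K] (σ : W.K →+* ℂ) (p : ℕ) [Fact p.Prime]
    (Φ : FrobSystem W p) (ι : AlgebraicClosure ℚ →+* PadicAlgCl p)
    (r : ℕ) (X : Fin r → 𝒱.Obj) (E : Fin r → Type) [∀ i, Field (E i)] [∀ i, NumberField (E i)]
    [∀ i, IsCMField (E i)] (a e : Fin r → ℕ) (α : ∀ i, E i)
    (hα : ∀ i, IsWeilUnit p (a i) (α i))
    (hdeg : ∀ i, ∃ d : ℕ, d.Prime ∧ Module.finrank ℚ (E i) = 2 * d)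
    (hN : ∀ i, NoNormRelation (α i))
    (hX : ∀ i, IsSpannedByNumber Φ (X i) (e i) (α i))
    (hX2 : ∀ i, (∀ σ, OnLine W.K (letters Φ (X i) (e i) (α i) σ)) ∨ TateSquare Φ (X i))
    (n : Fin r → ℕ) (Z : 𝒱.Obj) (hZ : IsProductOfCopies W X n Z)
    (𝓛 : Set (IntermediateField ℚ (AlgebraicClosure ℚ)))
    (L₀ : Fin r → IntermediateField ℚ (AlgebraicClosure ℚ))
    (hL₀ : ∀ i, IsStable (L₀ i) ∧ SmallIntersection (E i) (L₀ i) (n i))
    (h𝓛 : ∀ i, ∀ L ∈ 𝓛, IsAllowed (E i) (L₀ i) L)
    (hE : ∀ i j, i < j → IsAllowed (E i) (L₀ i) (galoisClosure (E j))) :
    RiemannHyp Φ σ Z ∧ (∀ j ≤ Z.dim, PoleFormula Φ σ Z j) ∧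
    ∀ U : 𝒱.Obj, HasSlopes Φ ι 𝓛 U → RiemannHyp Φ σ U → RiemannHyp Φ σ (Z.prod U) ∧
      ∃ δ : ℕ → ℕ, (∀ j ≤ U.dim, PoleDefect Φ σ U j (δ j)) ∧ ∀ c ≤ (Z.prod U).dim,
      numRank ops (Z.prod U) c = conv Z.dim U.dim (numRank ops Z) (numRank ops U) c ∧
      PoleDefect Φ σ (Z.prod U) c (conv Z.dim U.dim (numRank ops Z) δ c) ∧
      (PoleFormula Φ σ (Z.prod U) c ↔ ∀ i ≤ Z.dim, ∀ j ≤ U.dim, i + j = c →
        numRank ops Z i ≠ 0 → PoleFormula Φ σ U j) :=
  main_pole σ (fun i => (hdeg i).elim fun _ h => noRel_prime (hα i) h.2 h.1 (hN i) ι) hX hX2 hZ
    hL₀ h𝓛 hE

end Pool.Agent.Results.MP_557161_ag.PrimeDegree
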